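import Pool.Agent.helper66.SL.SpecC

/-! # Row sl:EUL (MP_ad2b66_co): topes + vertices = edges + 2 -/

set_option autoImplicit false

namespace Pool.Agent.helper66.SL

open Pool.Agent.helper52.FC

theorem EUL_proof (hGEO : GEO) (hCRK : CRK) (hXJW : XJW) (hXUQ : XUQ) (hSZZ : SZZ) : EUL := by
  classical
  intro E _ L hR
  have := Fintype.ofFinite E
  have hom := hR.good.om
  have hsm := hR.good.simple
  obtain ⟨B, hB⟩ := exists_tope hom
  have hBs := tope_supp hom hsm hB
  have hcB : ∀ X ∈ L, IsTope L (helper52.FC.cmp X B) := by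
    intro X hX
    refine tope_of (hom.comp X hX B hB.1) fun e => ?_
    by_cases h : X e = 0
    · rw [cmp_pos h]
      exact hBs e
    · rw [cmp_neg h]
      exact h
  obtain ⟨J, hJmem⟩ : ∃ J : (E → SignType) → Finset E, ∀ X e, e ∈ J X ↔ (Wall L (helper52.FC.cmp X B) e ∧ X e = 0) :=
    ⟨fun X => Finset.univ.filter (fun e => Wall L (helper52.FC.cmp X B) e ∧ X e = 0), by simp⟩
  obtain ⟨W, hWmem⟩ : ∃ W : (E → SignType) → Finset E, ∀ T e, e ∈ W T ↔ (Wall L T e ∧ T e = B e) :=
    ⟨fun T => Finset.univ.filter (fun e => Wall L T e ∧ T e = B e), by simp⟩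
  obtain ⟨Ls, hLs⟩ : ∃ Ls : Finset (E → SignType), ∀ X, X ∈ Ls ↔ X ∈ L :=
    ⟨Finset.univ.filter (fun X => X ∈ L), by simp⟩
  obtain ⟨Ts, hTs⟩ : ∃ Ts : Finset (E → SignType), ∀ T, T ∈ Ts ↔ IsTope L T :=
    ⟨Finset.univ.filter (fun T => IsTope L T), by simp⟩
  have hJset : ∀ X, {e | Wall L (helper52.FC.cmp X B) e ∧ X e = 0} = (J X : Set E) := by
    intro X
    ext e
    rw [Set.mem_ofPred_eq, Finset.mem_coe, hJmem]
  have hJ : ∀ X ∈ L, Cork L X (J X).card := by
    intro X hX
    have h := hCRK E L hR.good X hX (helper52.FC.cmp X B) (hcB X hX) (le_cmp X B)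
    rwa [hJset X, Set.ncard_coe_finset] at h
  have hJk : ∀ X ∈ L, ∀ k, Cork L X k ↔ (J X).card = k := by
    intro X hX k
    constructor
    · intro h
      have h1 := h.2 (helper52.FC.cmp X B) (hcB X hX) (le_cmp X B)
      rwa [hJset X, Set.ncard_coe_finset] at h1
    · rintro rfl
      exact hJ X hX
  -- the alternating sum is one
  have hsum : ∑ X ∈ Ls, (-1 : ℤ) ^ (J X).card = 1 := by
    have hmaps : ∀ X ∈ Ls, helper52.FC.cmp X B ∈ Ts := fun X hX => (hTs _).2 (hcB X ((hLs X).1 hX))
    rw [← Finset.sum_fiberwise_of_maps_to hmaps]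
    have hfib : ∀ T ∈ Ts, ∑ X ∈ Ls with helper52.FC.cmp X B = T, (-1 : ℤ) ^ (J X).card =
        if W T = ∅ then 1 else 0 := by
      intro T hT
      rw [← Finset.sum_powerset_neg_one_pow_card]
      refine Finset.sum_nbij J ?_ ?_ ?_ (fun _ _ => rfl)
      · intro X hX
        obtain ⟨hX1, hX2⟩ := Finset.mem_filter.1 hX
        rw [Finset.mem_powerset]
        intro e he
        have h := (hJmem X e).1 he
        rw [hX2] at h
        refine (hWmem T e).2 ⟨h.1, ?_⟩
        rw [← hX2, cmp_pos h.2]
      · intro X hX Y hY hXY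
        obtain ⟨hX1, hX2⟩ := Finset.mem_filter.1 hX
        obtain ⟨hY1, hY2⟩ := Finset.mem_filter.1 hY
        refine hXUQ E L hR.good T ((hTs T).1 hT) X ((hLs X).1 hX1) Y ((hLs Y).1 hY1)
          (hX2 ▸ le_cmp X B) (hY2 ▸ le_cmp Y B) fun e he => ?_
        have h1 := hJmem X e
        have h2 := hJmem Y e
        rw [hX2] at h1
        rw [hY2] at h2
        have h3 : J X = J Y := hXY
        rw [h3] at h1
        constructor
        · intro h
          exact (h2.1 (h1.2 ⟨he, h⟩)).2
        · intro h
          exact (h1.1 (h2.2 ⟨he, h⟩)).2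
      · intro K hK
        have hK' : K ⊆ W T := Finset.mem_powerset.1 (Finset.mem_coe.1 hK)
        obtain ⟨X, hX1, hX2, hX3⟩ := hXJW E L hR.good T ((hTs T).1 hT) (K : Set E)
          (fun e he => ((hWmem T e).1 (hK' (Finset.mem_coe.1 he))).1)
        have hXL : X ∈ L := hX1.1
        have hcX : helper52.FC.cmp X B = T := by
          by_contra hne
          obtain ⟨e, he1, he2⟩ := hGEO E L hom hsm T (helper52.FC.cmp X B) ((hTs T).1 hT) (hcB X hXL)
            (fun h => hne h.symm)
          have h0 : X e = 0 := by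
            by_contra h
            rcases hX2 e with h' | h'
            · exact h h'
            · rw [cmp_neg h] at he2
              exact he2 h'.symm
          have h1 : e ∈ K := Finset.mem_coe.1 ((hX3 e he1).1 h0)
          have h2 := ((hWmem T e).1 (hK' h1)).2
          rw [cmp_pos h0] at he2
          exact he2 h2
        refine ⟨X, ?_, ?_⟩
        · rw [Finset.mem_coe, Finset.mem_filter]
          exact ⟨(hLs X).2 hXL, hcX⟩
        · ext e
          rw [hJmem, hcX]
          constructor
          · rintro ⟨h1, h2⟩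
            exact Finset.mem_coe.1 ((hX3 e h1).1 h2)
          · intro h
            have h1 := ((hWmem T e).1 (hK' h)).1
            exact ⟨h1, (hX3 e h1).2 (Finset.mem_coe.2 h)⟩
    rw [Finset.sum_congr rfl hfib, Finset.sum_eq_single (fun e => -B e)]
    · rw [if_pos]
      rw [Finset.eq_empty_iff_forall_notMem]
      intro e he
      have h1 := ((hWmem _ e).1 he).2
      exact hBs e (sneg (a := B e) (b := B e) h1.symm rfl)
    · intro T hT hne
      rw [if_neg]
      intro hW
      obtain ⟨e, he1, he2⟩ := hGEO E L hom hsm T _ ((hTs T).1 hT) (tope_neg hom hsm hB) hne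
      have h1 : T e = B e := by
        have h2 := tope_supp hom hsm ((hTs T).1 hT) e
        have h3 := tope_supp hom hsm (tope_neg hom hsm hB) e
        have h4 := sne h2 h3 he2
        rw [h4, neg_neg]
      have h5 : e ∈ W T := (hWmem T e).2 ⟨he1, h1⟩
      rw [hW] at h5
      exact absurd h5 (Finset.notMem_empty e)
    · intro h
      exact absurd ((hTs _).2 (tope_neg hom hsm hB)) h
  -- every tope has three walls
  have hwalls : ∀ T, IsTope L T → (Finset.univ.filter fun e => Wall L T e).card = 3 := by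
    intro T hT
    have h := hR.rk.2 T hT (fun e => Or.inl rfl)
    have e : {e | Wall L T e ∧ (0 : SignType) = 0} =
        ((Finset.univ.filter fun e => Wall L T e : Finset E) : Set E) := by
      ext e
      simp
    rwa [e, Set.ncard_coe_finset] at h
  have hJsub : ∀ X, J X ⊆ Finset.univ.filter fun e => Wall L (helper52.FC.cmp X B) e := by
    intro X e he
    exact Finset.mem_filter.2 ⟨Finset.mem_univ e, ((hJmem X e).1 he).1⟩
  have hJle : ∀ X ∈ L, (J X).card ≤ 3 := by
    intro X hX
    rw [← hwalls (helper52.FC.cmp X B) (hcB X hX)]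
    exact Finset.card_le_card (hJsub X)
  have hsplit : ∑ X ∈ Ls, (-1 : ℤ) ^ (J X).card =
      ((Ls.filter fun X => (J X).card = 0).card : ℤ) - (Ls.filter fun X => (J X).card = 1).card +
        (Ls.filter fun X => (J X).card = 2).card - (Ls.filter fun X => (J X).card = 3).card := by
    have hmaps : ∀ X ∈ Ls, (J X).card ∈ Finset.range 4 := fun X hX => by
      have := hJle X ((hLs X).1 hX)
      rw [Finset.mem_range]
      omega
    rw [← Finset.sum_fiberwise_of_maps_to hmaps]
    have hin : ∀ k ∈ Finset.range 4, ∑ X ∈ Ls with (J X).card = k, (-1 : ℤ) ^ (J X).card =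
        ((Ls.filter fun X => (J X).card = k).card : ℤ) * (-1) ^ k := by
      intro k _
      rw [Finset.sum_congr rfl (g := fun _ => (-1 : ℤ) ^ k)
        (fun X hX => by rw [(Finset.mem_filter.1 hX).2]), Finset.sum_const, nsmul_eq_mul]
    rw [Finset.sum_congr rfl hin]
    simp only [Finset.sum_range_succ, Finset.sum_range_zero]
    ring
  have hcork : ∀ k, {X | Cork L X k}.ncard = (Ls.filter fun X => (J X).card = k).card := by
    intro k
    rw [← Set.ncard_coe_finset]
    congr 1
    ext X
    rw [Set.mem_ofPred_eq, Finset.mem_coe, Finset.mem_filter, hLs]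
    constructor
    · intro h
      exact ⟨h.1, (hJk X h.1 k).1 h⟩
    · rintro ⟨h1, h2⟩
      exact (hJk X h1 k).2 h2
  have hc0 : {T | IsTope L T}.ncard = (Ls.filter fun X => (J X).card = 0).card := by
    rw [← Set.ncard_coe_finset]
    congr 1
    ext X
    rw [Set.mem_ofPred_eq, Finset.mem_coe, Finset.mem_filter, hLs, Finset.card_eq_zero]
    constructor
    · intro h
      refine ⟨h.1, ?_⟩
      rw [Finset.eq_empty_iff_forall_notMem]
      intro e he
      exact tope_supp hom hsm h e ((hJmem X e).1 he).2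
    · rintro ⟨h1, h2⟩
      have h3 : X = helper52.FC.cmp X B := by
        refine hXUQ E L hR.good (helper52.FC.cmp X B) (hcB X h1) X h1 (helper52.FC.cmp X B) (hcB X h1).1 (le_cmp X B)
          (fun e => Or.inr rfl) fun e he => ?_
        constructor
        · intro h
          have h4 : e ∈ J X := (hJmem X e).2 ⟨he, h⟩
          rw [h2] at h4
          exact absurd h4 (Finset.notMem_empty e)
        · intro h
          exact absurd h (tope_supp hom hsm (hcB X h1) e)
      rw [h3]
      exact hcB X h1
  have hc3 : (Ls.filter fun X => (J X).card = 3).card = 1 := by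
    rw [Finset.card_eq_one]
    refine ⟨fun _ => 0, ?_⟩
    ext X
    rw [Finset.mem_filter, hLs, Finset.mem_singleton]
    constructor
    · rintro ⟨h1, h2⟩
      have h3 : J X = Finset.univ.filter fun e => Wall L (helper52.FC.cmp X B) e :=
        Finset.eq_of_subset_of_card_le (hJsub X) (by rw [hwalls _ (hcB X h1), h2])
      refine hXUQ E L hR.good (helper52.FC.cmp X B) (hcB X h1) X h1 _ hom.zero (le_cmp X B)
        (fun e => Or.inl rfl) fun e he => ?_
      have h4 : e ∈ J X := by
        rw [h3]
        exact Finset.mem_filter.2 ⟨Finset.mem_univ e, he⟩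
      exact ⟨fun _ => rfl, fun _ => ((hJmem X e).1 h4).2⟩
    · intro h
      subst h
      exact ⟨hom.zero, (hJk _ hom.zero 3).1 hR.rk⟩
  have hc2 : {X | Cork L X 2}.ncard = {p | Vx L 2 p}.ncard + {p | Vx L 3 p}.ncard := by
    have h1 : {X | Cork L X 2} = {p | Vx L 2 p} ∪ {p | Vx L 3 p} := by
      ext p
      constructor
      · intro h
        rcases (hSZZ E L hR.good hR.cl p h).1 with h2 | h2
        · exact Or.inl ⟨h, h2⟩
        · exact Or.inr ⟨h, h2⟩
      · rintro (h | h)
        · exact h.1
        · exact h.1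
    rw [h1, Set.ncard_union_eq]
    · rw [Set.disjoint_left]
      intro p h2 h3
      have h4 : {g | p g = 0}.ncard = 2 := h2.2
      have h5 : {g | p g = 0}.ncard = 3 := h3.2
      omega
  rw [hsplit, hc3, ← hc0, ← hcork 1, ← hcork 2, hc2] at hsum
  push_cast at hsum
  omega

end Pool.Agent.helper66.SL
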